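import Pool.Agent.P8H63.RS.Stm

set_option autoImplicit false

/-! # Package LKA of project RS (helper75) -/

namespace Pool.Agent.P8H75.RS

open Module Pool.Agent.P8H63.RS

/-- linear independence and extension of the field -/
theorem li_ext {F E : Type} [Field F] [Field E] (f : F →+* E) {m n : ℕ} (v : Fin m → Fin n → F)
    (h : LinearIndependent F v) : LinearIndependent E (fun i j => f (v i j)) := by
  let _ : Algebra F E := f.toAlgebra
  rw [Fintype.linearIndependent_iff] at h ⊢
  intro g hg i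
  refine (Module.forall_dual_apply_eq_zero_iff F (g i)).1 fun φ => ?_
  refine h (fun i => φ (g i)) ?_ i
  funext j
  have h1 := congrFun hg j
  rw [Finset.sum_apply] at h1
  have h2 := congrArg φ h1
  rw [map_sum, Pi.zero_apply, map_zero] at h2
  rw [Finset.sum_apply, Pi.zero_apply, ← h2]
  refine Finset.sum_congr rfl fun i _ => ?_
  rw [Pi.smul_apply, Pi.smul_apply, smul_eq_mul, smul_eq_mul, mul_comm (g i)]
  have h3 : f (v i j) * g i = v i j • g i := rfl
  rw [h3, map_smul, smul_eq_mul, mul_comm]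

/-- the bilinear expression -/
noncomputable def FF {n : ℕ} (M : Matrix (Fin n) (Fin n) ℂ) (w x : Fin n → algebraicClosure ℚ ℂ) : ℂ :=
  ∑ i, ∑ j, (w i : ℂ) * M i j * (x j : ℂ)

theorem FF_add_left {n : ℕ} (M : Matrix (Fin n) (Fin n) ℂ) (w w' x : Fin n → algebraicClosure ℚ ℂ) :
    FF M (w + w') x = FF M w x + FF M w' x := by
  unfold FF
  rw [← Finset.sum_add_distrib]
  refine Finset.sum_congr rfl fun i _ => ?_
  rw [← Finset.sum_add_distrib]
  refine Finset.sum_congr rfl fun j _ => ?_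
  rw [Pi.add_apply]
  push_cast
  ring

theorem FF_add_right {n : ℕ} (M : Matrix (Fin n) (Fin n) ℂ) (w x x' : Fin n → algebraicClosure ℚ ℂ) :
    FF M w (x + x') = FF M w x + FF M w x' := by
  unfold FF
  rw [← Finset.sum_add_distrib]
  refine Finset.sum_congr rfl fun i _ => ?_
  rw [← Finset.sum_add_distrib]
  refine Finset.sum_congr rfl fun j _ => ?_
  rw [Pi.add_apply]
  push_cast
  ring

theorem FF_smul_left {n : ℕ} (M : Matrix (Fin n) (Fin n) ℂ) (a : algebraicClosure ℚ ℂ)
    (w x : Fin n → algebraicClosure ℚ ℂ) : FF M (a • w) x = (a : ℂ) * FF M w x := by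
  unfold FF
  rw [Finset.mul_sum]
  refine Finset.sum_congr rfl fun i _ => ?_
  rw [Finset.mul_sum]
  refine Finset.sum_congr rfl fun j _ => ?_
  rw [Pi.smul_apply, smul_eq_mul]
  push_cast
  ring

theorem FF_smul_right {n : ℕ} (M : Matrix (Fin n) (Fin n) ℂ) (a : algebraicClosure ℚ ℂ)
    (w x : Fin n → algebraicClosure ℚ ℂ) : FF M w (a • x) = (a : ℂ) * FF M w x := by
  unfold FF
  rw [Finset.mul_sum]
  refine Finset.sum_congr rfl fun i _ => ?_
  rw [Finset.mul_sum]
  refine Finset.sum_congr rfl fun j _ => ?_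
  rw [Pi.smul_apply, smul_eq_mul]
  push_cast
  ring

theorem FF_zero_left {n : ℕ} (M : Matrix (Fin n) (Fin n) ℂ) (x : Fin n → algebraicClosure ℚ ℂ) :
    FF M 0 x = 0 := by
  unfold FF
  simp

theorem FF_zero_right {n : ℕ} (M : Matrix (Fin n) (Fin n) ℂ) (w : Fin n → algebraicClosure ℚ ℂ) :
    FF M w 0 = 0 := by
  unfold FF
  simp

/-- from generators to spans -/
theorem span_span {n : ℕ} (M : Matrix (Fin n) (Fin n) ℂ) (P : ℂ)
    (A B : Set (Fin n → algebraicClosure ℚ ℂ))
    (h : ∀ w ∈ A, ∀ x ∈ B, ∃ c : algebraicClosure ℚ ℂ, FF M w x = (c : ℂ) * P) :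
    ∀ w ∈ Submodule.span (algebraicClosure ℚ ℂ) A, ∀ x ∈ Submodule.span (algebraicClosure ℚ ℂ) B,
      ∃ c : algebraicClosure ℚ ℂ, FF M w x = (c : ℂ) * P := by
  intro w hw x hx
  induction hw using Submodule.span_induction with
  | mem w hwA =>
    induction hx using Submodule.span_induction with
    | mem x hxB => exact h w hwA x hxB
    | zero => exact ⟨0, by rw [FF_zero_right]; simp⟩
    | add x x' _ _ h1 h2 =>
      obtain ⟨c, hc⟩ := h1
      obtain ⟨c', hc'⟩ := h2
      exact ⟨c + c', by rw [FF_add_right, hc, hc']; push_cast; ring⟩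
    | smul a x _ h1 =>
      obtain ⟨c, hc⟩ := h1
      exact ⟨a * c, by rw [FF_smul_right, hc]; push_cast; ring⟩
  | zero => exact ⟨0, by rw [FF_zero_left]; simp⟩
  | add w w' _ _ h1 h2 =>
    obtain ⟨c, hc⟩ := h1
    obtain ⟨c', hc'⟩ := h2
    exact ⟨c + c', by rw [FF_add_left, hc, hc']; push_cast; ring⟩
  | smul a w _ h1 =>
    obtain ⟨c, hc⟩ := h1
    exact ⟨a * c, by rw [FF_smul_left, hc]; push_cast; ring⟩

/-- LKA -/
theorem lka : S_LKA := by
  classical
  intro 𝓛 P hK n s ρ M hM e he hρ X Y hXY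
  set T : Set ℂ := Set.range fun q : Fin s × Fin n => (e q.1 q.2 : ℂ) with hT
  set K : IntermediateField ℚ ℂ := IntermediateField.adjoin ℚ T with hKdef
  have halg : ∀ x ∈ T, IsIntegral ℚ x := by
    rintro x ⟨q, rfl⟩
    exact ((mem_algebraicClosure_iff).1 (e q.1 q.2).2).isIntegral
  have : Finite T := Set.finite_range _
  have hfd : FiniteDimensional ℚ K := IntermediateField.finiteDimensional_adjoin halg
  have hle : K ≤ algebraicClosure ℚ ℂ := by
    rw [hKdef, IntermediateField.adjoin_le_iff]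
    rintro x ⟨q, rfl⟩
    exact (e q.1 q.2).2
  have hmemK : ∀ t j, (e t j : ℂ) ∈ K := fun t j =>
    IntermediateField.subset_adjoin ℚ T ⟨(t, j), rfl⟩
  set ι : K →+* algebraicClosure ℚ ℂ := (IntermediateField.inclusion hle).toRingHom with hι
  have hιc : ∀ x : K, ((ι x : algebraicClosure ℚ ℂ) : ℂ) = (x : ℂ) := fun x => rfl
  obtain ⟨N, S, hN, hNS, hP⟩ := hK K s n ρ (fun t i => ∑ j, M i j * (e t j : ℂ)) X Y hρ
    (by
      intro t i
      refine Submodule.sum_mem _ fun j _ => ?_
      have h1 : M i j * (e t j : ℂ) = (⟨(e t j : ℂ), hmemK t j⟩ : K) • M i j := by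
        rw [mul_comm]; rfl
      rw [h1]
      exact Submodule.smul_mem _ _ (Submodule.subset_span (hM i j)))
    (fun t i => hXY t i)
  -- bases
  let bN := Module.finBasis K N
  let bS := Module.finBasis K S
  have hbN : LinearIndependent K (fun r => ((bN r : N) : Fin s → K)) :=
    bN.linearIndependent.map' N.subtype (Submodule.ker_subtype _)
  have hbS : LinearIndependent K (fun r => ((bS r : S) : Fin n → K)) :=
    bS.linearIndependent.map' S.subtype (Submodule.ker_subtype _)
  have hN1 := li_ext ι _ hbN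
  have hS1 := li_ext ι _ hbS
  -- the linear map given by `e`
  let L : (Fin s → algebraicClosure ℚ ℂ) →ₗ[algebraicClosure ℚ ℂ] (Fin n → algebraicClosure ℚ ℂ) :=
    Fintype.linearCombination (algebraicClosure ℚ ℂ) e
  have hL : ∀ β, L β = ∑ t, β t • e t := fun β => rfl
  have hLinj : LinearMap.ker L = ⊥ := by
    rw [LinearMap.ker_eq_bot']
    intro β hβ
    rw [Fintype.linearIndependent_iff] at he
    funext t
    exact he β hβ t
  have hN2 := hN1.map' L hLinj
  set xs : Fin (finrank K N) → Fin n → algebraicClosure ℚ ℂ :=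
    L ∘ (fun r t => ι (((bN r : N) : Fin s → K) t)) with hxs
  set ws : Fin (finrank K S) → Fin n → algebraicClosure ℚ ℂ :=
    fun r i => ι (((bS r : S) : Fin n → K) i) with hws
  have hd1 : finrank (algebraicClosure ℚ ℂ)
      (Submodule.span (algebraicClosure ℚ ℂ) (Set.range xs)) = finrank K N := by
    rw [finrank_span_eq_card hN2, Fintype.card_fin]
  have hd2 : finrank (algebraicClosure ℚ ℂ)
      (Submodule.span (algebraicClosure ℚ ℂ) (Set.range ws)) = finrank K S := by
    rw [finrank_span_eq_card hS1, Fintype.card_fin]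
  refine ⟨Submodule.span _ (Set.range xs), Submodule.span _ (Set.range ws), ?_, ?_, ?_, ?_⟩
  · rw [Submodule.span_le]
    rintro x ⟨r, rfl⟩
    rw [hxs, Function.comp_apply, hL]
    exact Submodule.sum_mem _ fun t _ => Submodule.smul_mem _ _ (Submodule.subset_span ⟨t, rfl⟩)
  · intro h0
    rw [h0, finrank_bot] at hd1
    exact hN (Submodule.finrank_eq_zero.1 hd1.symm)
  · rw [hd1, hd2]
    exact hNS
  · refine span_span M P _ _ ?_
    rintro w ⟨r, rfl⟩ x ⟨r', rfl⟩
    obtain ⟨c, hc⟩ := hP _ (bN r').2 _ (bS r).2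
    refine ⟨ι c, ?_⟩
    rw [hιc, ← hc]
    have hR : ∑ t, ∑ i, (((bN r' : N) : Fin s → K) t : ℂ) * (((bS r : S) : Fin n → K) i : ℂ) *
          ∑ j, M i j * (e t j : ℂ) =
        ∑ i, ∑ j, ∑ t, (((bN r' : N) : Fin s → K) t : ℂ) * (((bS r : S) : Fin n → K) i : ℂ) *
          (M i j * (e t j : ℂ)) := by
      simp only [Finset.mul_sum]
      rw [Finset.sum_comm]
      refine Finset.sum_congr rfl fun i _ => ?_
      rw [Finset.sum_comm]
    refine Eq.trans ?_ hR.symm
    unfold FF
    refine Finset.sum_congr rfl fun i _ => Finset.sum_congr rfl fun j _ => ?_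
    have hx : ((xs r' j : algebraicClosure ℚ ℂ) : ℂ) =
        ∑ t, (((bN r' : N) : Fin s → K) t : ℂ) * (e t j : ℂ) := by
      rw [hxs, Function.comp_apply, hL, Finset.sum_apply]
      push_cast
      rfl
    have hw : ((ws r i : algebraicClosure ℚ ℂ) : ℂ) = (((bS r : S) : Fin n → K) i : ℂ) := rfl
    rw [hx, hw, Finset.mul_sum]
    refine Finset.sum_congr rfl fun t _ => ?_
    ring

end Pool.Agent.P8H75.RS
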